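import Pool.Agent.Helper67.KPG.St2

/-!
Project KP (MP_26be5b_ag), chapter G: the projector to `w (g_(≥ j))`.
-/

set_option autoImplicit false
set_option linter.unusedSectionVars false

namespace Pool.Agent.Helper26.KPG

open Pool.Agent.Helper67.KPG
open Pool.Agent.Helper67.NO Pool.Agent.Helper52.KP
open Polynomial

universe u

section

variable {g : Type u} [LieRing g] [LieAlgebra ℂ g] [FiniteDimensional ℂ g]

theorem prh {e h f : g} {N : ℕ} {pr : ℤ → g →ₗ[ℂ] g} (hS : Sl e h f N pr) (i : ℤ) (x : g) :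
    pr i ⁅h, x⁆ = (i : ℂ) • pr i x := by
  by_cases hi : (N : ℤ) < |i|
  · rw [hS.top i hi]; simp
  · have hmem : i ∈ Finset.Icc (-(N : ℤ)) N := by
      rw [Finset.mem_Icc]
      have := abs_le.mp (not_lt.mp hi)
      exact this
    have h1 : ⁅h, x⁆ = ∑ j ∈ Finset.Icc (-(N : ℤ)) N, (j : ℂ) • pr j x := by
      conv_lhs => rw [← hS.sum x]
      rw [lie_sum]
      exact Finset.sum_congr rfl fun j _ => hS.eig j x
    rw [h1, map_sum, Finset.sum_eq_single i]
    · rw [map_smul, hS.fix i (pr i x) (hS.eig i x)]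
    · intro j _ hji
      rw [map_smul, hS.orth i j (Ne.symm hji), smul_zero]
    · intro h2
      exact absurd hmem h2

theorem step {e h f : g} {N : ℕ} {pr : ℤ → g →ₗ[ℂ] g} (hS : Sl e h f N pr)
    (hF : SlF e h f N pr) (n : g) (hn : n ∈ ge pr 1) (i : ℤ) (x : g) (hx : x ∈ ge pr i) :
    ⁅h + n, x⁆ - (i : ℂ) • x ∈ ge pr (i + 1) := by
  have h1 : ⁅n, x⁆ ∈ ge pr (i + 1) := by
    have := hF.brge 1 i n x hn hx
    rwa [add_comm] at this
  have h2 : ⁅h, x⁆ - (i : ℂ) • x ∈ ge pr (i + 1) := by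
    rw [mem_ge]
    intro k hk
    rw [map_sub, map_smul, prh hS]
    rcases lt_or_eq_of_le (Int.lt_add_one_iff.mp hk) with hk' | hk'
    · rw [mem_ge.mp hx k hk']; simp
    · rw [hk', sub_self]
  have h3 : ⁅h + n, x⁆ - (i : ℂ) • x = (⁅h, x⁆ - (i : ℂ) • x) + ⁅n, x⁆ := by
    rw [add_lie]; abel
  rw [h3]
  exact Submodule.add_mem _ h2 h1

/-- product of the factors `X - i`, `i ∈ s` -/
noncomputable def pp (s : Finset ℤ) : ℂ[X] := ∏ i ∈ s, (X - C (i : ℂ))

theorem pp_insert (s : Finset ℤ) (i : ℤ) (hi : i ∉ s) :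
    pp (insert i s) = (X - C (i : ℂ)) * pp s := by
  unfold pp
  rw [Finset.prod_insert hi]

theorem aev_lin (A : Module.End ℂ g) (i : ℤ) (x : g) :
    (aeval A (X - C (i : ℂ))) x = A x - (i : ℂ) • x := by
  rw [map_sub, aeval_X, aeval_C, LinearMap.sub_apply, Module.algebraMap_end_apply]

theorem aev_mul (A : Module.End ℂ g) (p q : ℂ[X]) (x : g) :
    (aeval A (p * q)) x = (aeval A p) ((aeval A q) x) := by
  rw [map_mul]; rfl

theorem aev_mem (A : Module.End ℂ g) (S : Submodule ℂ g) (hA : ∀ x ∈ S, A x ∈ S) (p : ℂ[X]) :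
    ∀ x ∈ S, (aeval A p) x ∈ S := by
  induction p using Polynomial.induction_on with
  | C a =>
    intro x hx
    simp only [aeval_C, Module.algebraMap_end_apply]
    exact S.smul_mem _ hx
  | add p q hp hq =>
    intro x hx
    rw [map_add]
    exact S.add_mem (hp x hx) (hq x hx)
  | monomial n a ih =>
    intro x hx
    have h1 : (C a * X ^ (n + 1) : ℂ[X]) = (C a * X ^ n) * X := by rw [pow_succ, mul_assoc]
    rw [h1, aev_mul]
    apply ih
    simpa using hA x hx

theorem aev_conj (A B : Module.End ℂ g) (w : g →ₗ[ℂ] g) (hw : ∀ y, B (w y) = w (A y))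
    (p : ℂ[X]) : ∀ y, (aeval B p) (w y) = w ((aeval A p) y) := by
  induction p using Polynomial.induction_on with
  | C a =>
    intro y
    simp only [aeval_C, Module.algebraMap_end_apply, map_smul]
  | add p q hp hq =>
    intro y
    rw [map_add, map_add, LinearMap.add_apply, LinearMap.add_apply, map_add, hp, hq]
  | monomial n a ih =>
    intro y
    have h1 : (C a * X ^ (n + 1) : ℂ[X]) = (C a * X ^ n) * X := by rw [pow_succ, mul_assoc]
    rw [h1, aev_mul B (C a * X ^ n) X, aev_mul A (C a * X ^ n) X]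
    simp only [aeval_X]
    rw [hw, ih]

variable {e h f : g} {N : ℕ} {pr : ℤ → g →ₗ[ℂ] g}

theorem aPart (hS : Sl e h f N pr) (hF : SlF e h f N pr) (n : g) (hn : n ∈ ge pr 1)
    (k : ℕ) (x : g) :
    (aeval (LieAlgebra.ad ℂ g (h + n) : Module.End ℂ g)
      (pp ((Finset.Icc (-(N : ℤ)) N).filter (fun i => i < -(N : ℤ) + k)))) x ∈
      ge pr (-(N : ℤ) + k) := by
  induction k with
  | zero =>
    rw [hF.getop _ (by simp)]
    exact Submodule.mem_top
  | succ k ih =>
    by_cases hk : -(N : ℤ) + k ≤ N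
    · have h1 : (Finset.Icc (-(N : ℤ)) N).filter (fun i => i < -(N : ℤ) + (k + 1 : ℕ)) =
          insert (-(N : ℤ) + k) ((Finset.Icc (-(N : ℤ)) N).filter
            (fun i => i < -(N : ℤ) + k)) := by
        ext i
        simp only [Finset.mem_filter, Finset.mem_Icc, Finset.mem_insert]
        push_cast
        constructor
        · rintro ⟨⟨a1, a2⟩, a3⟩
          omega
        · rintro (a1 | ⟨⟨a1, a2⟩, a3⟩)
          · omega
          · omega
      rw [h1, pp_insert _ _ (by simp), aev_mul, aev_lin]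
      have h2 := step hS hF n hn _ _ ih
      have h3 : (-(N : ℤ) + (k + 1 : ℕ)) = -(N : ℤ) + k + 1 := by push_cast; ring
      rw [h3]
      simpa using h2
    · have h1 : (Finset.Icc (-(N : ℤ)) N).filter (fun i => i < -(N : ℤ) + (k + 1 : ℕ)) =
          (Finset.Icc (-(N : ℤ)) N).filter (fun i => i < -(N : ℤ) + k) := by
        ext i
        simp only [Finset.mem_filter, Finset.mem_Icc]
        push_cast
        omega
      rw [h1]
      rw [hF.gebot _ (by omega)] at ih
      rw [(Submodule.mem_bot ℂ).mp ih]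
      exact Submodule.zero_mem _

theorem bPart (hS : Sl e h f N pr) (hF : SlF e h f N pr) (n : g) (hn : n ∈ ge pr 1)
    (k : ℕ) : ∀ x : g, x ∈ ge pr ((N : ℤ) + 1 - k) →
    (aeval (LieAlgebra.ad ℂ g (h + n) : Module.End ℂ g)
      (pp ((Finset.Icc (-(N : ℤ)) N).filter (fun i => (N : ℤ) + 1 - k ≤ i)))) x = 0 := by
  induction k with
  | zero =>
    intro x hx
    rw [hF.gebot _ (by simp)] at hx
    rw [(Submodule.mem_bot ℂ).mp hx, map_zero]
  | succ k ih =>
    intro x hx
    by_cases hk : -(N : ℤ) ≤ (N : ℤ) - k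
    · have h1 : (Finset.Icc (-(N : ℤ)) N).filter (fun i => (N : ℤ) + 1 - (k + 1 : ℕ) ≤ i) =
          insert ((N : ℤ) - k) ((Finset.Icc (-(N : ℤ)) N).filter
            (fun i => (N : ℤ) + 1 - k ≤ i)) := by
        ext i
        simp only [Finset.mem_filter, Finset.mem_Icc, Finset.mem_insert]
        push_cast
        constructor
        · rintro ⟨⟨a1, a2⟩, a3⟩
          omega
        · rintro (a1 | ⟨⟨a1, a2⟩, a3⟩)
          · omega
          · omega
      have hx' : x ∈ ge pr ((N : ℤ) - k) := by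
        have : (N : ℤ) + 1 - (k + 1 : ℕ) = (N : ℤ) - k := by push_cast; ring
        rwa [this] at hx
      rw [h1, pp_insert _ _ (by simp), mul_comm, aev_mul, aev_lin]
      apply ih
      have h2 := step hS hF n hn _ _ hx'
      have h3 : (N : ℤ) + 1 - k = (N : ℤ) - k + 1 := by ring
      rw [h3]
      simpa using h2
    · have h1 : (Finset.Icc (-(N : ℤ)) N).filter (fun i => (N : ℤ) + 1 - (k + 1 : ℕ) ≤ i) =
          (Finset.Icc (-(N : ℤ)) N).filter (fun i => (N : ℤ) + 1 - k ≤ i) := by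
        ext i
        simp only [Finset.mem_filter, Finset.mem_Icc]
        push_cast
        omega
      rw [h1]
      apply ih
      rw [hF.getop _ (by omega)]
      exact Submodule.mem_top

theorem copr (s t : Finset ℤ) (hst : ∀ i ∈ s, ∀ j ∈ t, i ≠ j) : IsCoprime (pp s) (pp t) := by
  unfold pp
  apply IsCoprime.prod_left
  intro i hi
  apply IsCoprime.prod_right
  intro j hj
  apply Polynomial.isCoprime_X_sub_C_of_isUnit_sub
  have hne : (i : ℂ) - (j : ℂ) ≠ 0 := by
    rw [sub_ne_zero]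
    exact_mod_cast hst i hi j hj
  exact hne.isUnit

theorem projector (N : ℕ) (j : ℤ) : ∃ P : ℂ[X], ∀ (e h f : g) (pr : ℤ → g →ₗ[ℂ] g),
    Sl e h f N pr → SlF e h f N pr → ∀ n ∈ ge pr 1,
    (∀ x, (aeval (LieAlgebra.ad ℂ g (h + n) : Module.End ℂ g) P) x ∈ ge pr j) ∧
    (∀ y ∈ ge pr j, (aeval (LieAlgebra.ad ℂ g (h + n) : Module.End ℂ g) P) y = y) := by
  set a := pp ((Finset.Icc (-(N : ℤ)) N).filter (fun i => i < j)) with ha
  set b := pp ((Finset.Icc (-(N : ℤ)) N).filter (fun i => j ≤ i)) with hb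
  obtain ⟨c, d, hcd⟩ : IsCoprime a b := by
    apply copr
    intro i hi k hk
    simp only [Finset.mem_filter] at hi hk
    omega
  refine ⟨c * a, ?_⟩
  intro e h f pr hS hF n hn
  set A : Module.End ℂ g := LieAlgebra.ad ℂ g (h + n) with hA
  have hpres : ∀ x ∈ ge pr j, A x ∈ ge pr j := by
    intro x hx
    have h0 : h + n ∈ ge pr 0 :=
      Submodule.add_mem _ hF.h0.1 (hF.gemono 0 1 (by norm_num) hn)
    have := hF.brge 0 j (h + n) x h0 hx
    rw [zero_add] at this
    simpa [hA] using this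
  have ha1 : ∀ x, (aeval A a) x ∈ ge pr j := by
    intro x
    by_cases hj : j ≤ -(N : ℤ)
    · rw [hF.getop j hj]
      exact Submodule.mem_top
    · have h1 := aPart hS hF n hn (j + N).toNat x
      have h2 : -(N : ℤ) + ((j + N).toNat : ℤ) = j := by omega
      rw [h2] at h1
      exact h1
  have hb1 : ∀ y ∈ ge pr j, (aeval A b) y = 0 := by
    intro y hy
    by_cases hj : (N : ℤ) < j
    · rw [hF.gebot j hj] at hy
      rw [(Submodule.mem_bot ℂ).mp hy, map_zero]
    · have h2 : (N : ℤ) + 1 - (((N : ℤ) + 1 - j).toNat : ℤ) = j := by omega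
      have h1 := bPart hS hF n hn ((N : ℤ) + 1 - j).toNat y (by rw [h2]; exact hy)
      rw [h2] at h1
      exact h1
  constructor
  · intro x
    rw [aev_mul]
    exact aev_mem A (ge pr j) hpres c _ (ha1 x)
  · intro y hy
    have h1 : (aeval A (c * a + d * b)) y = y := by rw [hcd]; simp
    rw [map_add, LinearMap.add_apply, aev_mul A d b, hb1 y hy, map_zero, add_zero] at h1
    exact h1

end

theorem hPRJ (hBAS : StBAS.{u}) (hBAE : StBAE.{u}) (hGPF : StGPF.{u}) : StPRJ.{u} := by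
  intro g _ _ _ e h f N pr hS j
  have hF := hBAS g e h f N pr hS
  have hE := hBAE g e h f N pr hS
  have hG := hGPF g
  obtain ⟨P, hP⟩ := projector (g := g) N j
  refine ⟨P, ?_⟩
  intro w hw F hwF
  obtain ⟨w', hw', h1, h2⟩ := hG.inv _ w hw
  have e1 : ∀ x, w (w' x) = x := fun x => LinearMap.congr_fun h1 x
  have e2 : ∀ x, w' (w x) = x := fun x => LinearMap.congr_fun h2 x
  have l1 := hG.lie _ w hw
  have l2 := hG.lie _ w' hw'
  set H : g := w' ⁅w e, F⁆ with hH
  have hH1 : H = ⁅e, w' F⁆ := by rw [hH, l2, e2]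
  have hwH : w H = ⁅w e, F⁆ := by rw [hH, e1]
  have heH : ⁅e, H⁆ = -((2 : ℂ) • e) := by
    have : ⁅e, H⁆ = w' ⁅w e, ⁅w e, F⁆⁆ := by rw [l2, e2]
    rw [this, hwF, map_neg, map_smul, e2]
  have heh : ⁅e, h⁆ = -((2 : ℂ) • e) := by
    rw [← lie_skew, hS.tri.lie_h_e_nsmul]
    congr 1
    rw [two_smul, two_smul]
  have hn : H - h ∈ ge pr 1 := by
    apply hE.ker1 (H - h) (w' F - f)
    · rw [lie_sub, heH, heh, sub_self]
    · rw [lie_sub, ← hH1, hS.tri.lie_e_f]
  obtain ⟨p1, p2⟩ := hP e h f pr hS hF (H - h) hn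
  have hHh : h + (H - h) = H := by abel
  rw [hHh] at p1 p2
  have hconj := aev_conj (LieAlgebra.ad ℂ g H : Module.End ℂ g)
    (LieAlgebra.ad ℂ g ⁅w e, F⁆ : Module.End ℂ g) w (fun y => by
      rw [LieAlgebra.ad_apply, LieAlgebra.ad_apply, l1, hwH]) P
  constructor
  · intro x
    refine ⟨(aeval (LieAlgebra.ad ℂ g H : Module.End ℂ g) P) (w' x), p1 _, ?_⟩
    have h3 := hconj (w' x)
    rw [e1] at h3
    exact h3
  · intro y hy
    rw [hconj y, p2 y hy]

end Pool.Agent.Helper26.KPG
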